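import Mathlib

/-!
# Arc-complexity of uniform matroids

`arcC(U_{r,n}) = r (n - r)` fails for all `r ≥ 4`, `n - r ≥ 4`; the smallest such case is
`U_{4,8}`, which has a standard representation with `15 < 16` arcs.

The digraph: start from the complete bipartite digraph from the `n - r` sources to the `r` sinks,
delete nine arcs forming a theta graph (three internally disjoint paths of length three joining
the source `0` to the sink `0`), and add one new vertex (the hub) with arcs from four sources and
to four sinks.
-/

namespace Pool.Agent.Results.MP_0a0514_co.UniformArcs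

/-- A path in the digraph with arc set `A` on the vertex type `V`: a nonempty list of distinct
vertices such that consecutive vertices are joined by an arc. -/
def IsDipath {V : Type*} (A : Set (V × V)) (p : List V) : Prop :=
  p ≠ [] ∧ p.Nodup ∧ p.IsChain (fun u v => (u, v) ∈ A)

/-- `R` is a routing from `X` to `T` in the digraph with arc set `A`: a set of pairwise
vertex-disjoint paths such that every `x ∈ X` is the first vertex of some path in `R` and every
path in `R` ends in `T`. -/
structure IsRouting {V : Type*} (A : Set (V × V)) (X T : Set V) (R : Set (List V)) : Prop where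
  isDipath : ∀ p ∈ R, IsDipath A p
  disjoint : ∀ p ∈ R, ∀ q ∈ R, p ≠ q → ∀ v, v ∈ p → v ∉ q
  start : ∀ x ∈ X, ∃ p ∈ R, p.head? = some x
  finish : ∀ p ∈ R, ∃ t ∈ T, p.getLast? = some t

/-- `(D, T, E)` is a standard representation of the matroid `M`, where `D = (V, A)`, the ground
set of `M` is identified with the set of vertices `E = ι '' M.E` by the injection `ι`, and
`T ⊆ E`: all `t ∈ T` are sinks of `D`, all `e ∈ E \ T` are sources of `D`, and the independent
sets of `M` are exactly the subsets of the ground set admitting a routing to `T` in `D`,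
that is `M = Γ(D, T, E)`. -/
structure IsStandardRep {α V : Type*} (M : Matroid α) (ι : α → V) (A : Set (V × V))
    (T : Set V) : Prop where
  injOn : Set.InjOn ι M.E
  target_subset : T ⊆ ι '' M.E
  sink : ∀ t ∈ T, ∀ v, (t, v) ∉ A
  source : ∀ e ∈ ι '' M.E, e ∉ T → ∀ v, (v, e) ∉ A
  indep_iff : ∀ X ⊆ M.E, M.Indep X ↔ ∃ R, IsRouting A (ι '' X) T R

/-- The arc-complexity of a matroid `M`: the least number of arcs `|A|` of a standard
representation `((V, A), T, E)` of `M` with `V` finite (and `⊤` if there is none). -/
noncomputable def arcComplexity {α : Type} (M : Matroid α) : ℕ∞ :=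
  sInf {k : ℕ∞ | ∃ (V : Type) (_ : Fintype V) (ι : α → V) (A : Finset (V × V)) (T : Set V),
    IsStandardRep M ι (A : Set (V × V)) T ∧ k = (A.card : ℕ∞)}

/-- The uniform matroid `U_{r,n}` on an `n`-element ground set: the independent sets are the
subsets with at most `r` elements. -/
def uniformMatroid (r n : ℕ) : Matroid (Fin n) :=
  (IndepMatroid.ofFinite (E := Set.univ) Set.finite_univ (fun I : Set (Fin n) => I.ncard ≤ r)
    (by simp)
    (fun I J hJ hIJ => (Set.ncard_le_ncard hIJ (Set.toFinite J)).trans hJ)
    (fun I J _ hJ hlt => by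
      obtain ⟨e, heJ, heI⟩ : ∃ e ∈ J, e ∉ I := by
        by_contra hcon
        push Not at hcon
        exact absurd (Set.ncard_le_ncard hcon (Set.toFinite I)) (by omega)
      refine ⟨e, heJ, heI, ?_⟩
      have := Set.ncard_insert_le e I
      omega)
    (fun I _ => Set.subset_univ I)).matroid

@[simp] theorem uniformMatroid_E (r n : ℕ) : (uniformMatroid r n).E = Set.univ := rfl

@[simp] theorem uniformMatroid_indep (r n : ℕ) (I : Set (Fin n)) :
    (uniformMatroid r n).Indep I ↔ I.ncard ≤ r := Iff.rfl


/-! ### The deleted arcs -/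

/-- The nine deleted arcs `(i, j)` (source `i`, sink `j`). -/
def Del (i j : ℕ) : Prop :=
  i < 4 ∧ j < 4 ∧ ((i = 0 ∧ j ≠ 0) ∨ (j = 0 ∧ i ≠ 0) ∨ (i = j ∧ i ≠ 0))

instance (i j : ℕ) : Decidable (Del i j) := by unfold Del; infer_instance

theorem del_rect {i i' j j' : ℕ} (h1 : Del i j) (h2 : Del i' j) (h3 : Del i j')
    (h4 : Del i' j') : i = i' ∨ j = j' := by
  unfold Del at *; omega

theorem exists_assignment {m r : ℕ} (P : Finset (Fin m)) (Y : Finset (Fin r))
    (h : P.card ≤ Y.card) :
    ∃ f : P → Fin r, (∀ i, f i ∈ Y) ∧ Function.Injective f ∧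
      ∀ i i' : P, Del i.1 (f i) → Del i'.1 (f i') → i = i' := by
  classical
  -- allowed targets: a sink of `Y` reachable directly, or the dummy value `none`
  let t : P → Finset (Option (Fin r)) := fun i =>
    insert none ((Y.filter (fun y : Fin r => ¬ Del i.1 y)).map Function.Embedding.some)
  have hall : ∀ s : Finset P, s.card ≤ (s.biUnion t).card := by
    intro s
    rcases s.eq_empty_or_nonempty with rfl | hs
    · simp
    have hsP : s.card ≤ P.card := by
      simpa using Finset.card_le_univ s
    -- the sinks of `Y` that are directly reachable from some element of `s`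
    have hsub : insert none ((Y.filter (fun y : Fin r => ∃ i ∈ s, ¬ Del i.1 y)).map
        Function.Embedding.some) ⊆ s.biUnion t := by
      intro o ho
      rw [Finset.mem_insert, Finset.mem_map] at ho
      rw [Finset.mem_biUnion]
      rcases ho with rfl | ⟨y, hy, rfl⟩
      · obtain ⟨i, hi⟩ := hs
        exact ⟨i, hi, Finset.mem_insert_self _ _⟩
      · rw [Finset.mem_filter] at hy
        obtain ⟨hyY, i, hi, hd⟩ := hy
        refine ⟨i, hi, ?_⟩
        rw [Finset.mem_insert, Finset.mem_map]
        right
        exact ⟨y, Finset.mem_filter.2 ⟨hyY, hd⟩, rfl⟩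
    refine le_trans ?_ (Finset.card_le_card hsub)
    rw [Finset.card_insert_of_notMem (by simp), Finset.card_map]
    by_cases h1 : s.card ≤ 1
    · omega
    push Not at h1
    obtain ⟨a, ha, b, hb, hab⟩ := Finset.one_lt_card.1 h1
    have hbad : (Y.filter (fun y : Fin r => ¬ ∃ i ∈ s, ¬ Del i.1 y)).card ≤ 1 := by
      rw [Finset.card_le_one]
      intro y hy y' hy'
      rw [Finset.mem_filter] at hy hy'
      have e1 := hy.2; have e2 := hy'.2
      push Not at e1 e2
      rcases del_rect (e1 a ha) (e1 b hb) (e2 a ha) (e2 b hb) with h | h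
      · exact absurd (Subtype.ext (Fin.ext h)) hab
      · exact Fin.ext h
    have hsum := Finset.card_filter_add_card_filter_not (s := Y)
      (fun y : Fin r => ∃ i ∈ s, ¬ Del i.1 y)
    omega
  obtain ⟨g, hginj, hg⟩ := (Finset.all_card_le_biUnion_card_iff_exists_injective t).1 hall
  -- every `g i` is `none` or a directly reachable sink
  have hg' : ∀ i y, g i = some y → y ∈ Y ∧ ¬ Del i.1 y := by
    intro i y hy
    have := hg i
    rw [hy] at this
    simpa [t] using this
  by_cases hnone : ∃ i0, g i0 = none
  · obtain ⟨i0, hi0⟩ := hnone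
    -- an unused sink
    have hlt : ((Finset.univ.erase i0).image g).card < (Y.map Function.Embedding.some).card := by
      rw [Finset.card_map]
      refine lt_of_le_of_lt Finset.card_image_le ?_
      rw [Finset.card_erase_of_mem (Finset.mem_univ _), Finset.card_univ, Fintype.card_coe]
      have : 0 < P.card := Finset.card_pos.2 ⟨i0.1, i0.2⟩
      omega
    obtain ⟨o, hoY, hoU⟩ := Finset.exists_mem_notMem_of_card_lt_card hlt
    rw [Finset.mem_map] at hoY
    obtain ⟨y0, hy0, rfl⟩ := hoY
    have hsome : ∀ i : P, ∃ y, (i = i0 → y = y0) ∧ (i ≠ i0 → g i = some y) := by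
      intro i
      by_cases hi : i = i0
      · exact ⟨y0, fun _ => rfl, fun h => absurd hi h⟩
      · have : g i ≠ none := fun hc => hi (hginj (hc.trans hi0.symm))
        obtain ⟨y, hy⟩ := Option.ne_none_iff_exists'.1 this
        exact ⟨y, fun h => absurd h hi, fun _ => hy⟩
    choose f hf1 hf2 using hsome
    have hne : ∀ i, i ≠ i0 → f i ≠ y0 := by
      intro i hi hfi
      apply hoU
      rw [Finset.mem_image]
      refine ⟨i, Finset.mem_erase.2 ⟨hi, Finset.mem_univ _⟩, ?_⟩
      rw [hf2 i hi, hfi]; rfl
    refine ⟨f, ?_, ?_, ?_⟩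
    · intro i
      by_cases hi : i = i0
      · rw [hf1 i hi]; exact hy0
      · exact (hg' i _ (hf2 i hi)).1
    · intro i i' hii
      by_cases hi : i = i0
      · by_cases hi' : i' = i0
        · rw [hi, hi']
        · exact absurd (hii.symm.trans (hf1 i hi)) (hne i' hi')
      · by_cases hi' : i' = i0
        · exact absurd (hii.trans (hf1 i' hi')) (hne i hi)
        · apply hginj
          rw [hf2 i hi, hf2 i' hi', hii]
    · intro i i' hd hd'
      have hi : i = i0 := by
        by_contra hi
        exact (hg' i _ (hf2 i hi)).2 hd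
      have hi' : i' = i0 := by
        by_contra hi'
        exact (hg' i' _ (hf2 i' hi')).2 hd'
      rw [hi, hi']
  · push Not at hnone
    have hsome : ∀ i, ∃ y, g i = some y := fun i => Option.ne_none_iff_exists'.1 (hnone i)
    choose f hf using hsome
    refine ⟨f, fun i => (hg' i _ (hf i)).1, ?_, ?_⟩
    · intro i i' hii
      apply hginj
      rw [hf, hf, hii]
    · intro i i' hd
      exact absurd hd (hg' i _ (hf i)).2

/-! ### The digraph -/

/-- The vertices: `m` sources, `r` sinks and the hub `none`. -/
abbrev Vtx (m r : ℕ) : Type := Option (Fin m ⊕ Fin r)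

/-- The source number `i`. -/
abbrev src {m r : ℕ} (i : Fin m) : Vtx m r := some (Sum.inl i)

/-- The sink number `j`. -/
abbrev snk {m r : ℕ} (j : Fin r) : Vtx m r := some (Sum.inr j)

/-- The arcs: all arcs from sources to sinks except the nine deleted ones, and the arcs from the
first four sources to the hub and from the hub to the first four sinks. -/
def arcs (m r : ℕ) (hm : 4 ≤ m) (hr : 4 ≤ r) : Finset (Vtx m r × Vtx m r) :=
  ((Finset.univ.filter (fun p : Fin m × Fin r => ¬ Del p.1 p.2)).image
      (fun p => ((src p.1 : Vtx m r), (snk p.2 : Vtx m r)))) ∪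
    ((Finset.univ.image (fun i : Fin 4 => ((src (Fin.castLE hm i) : Vtx m r), none))) ∪
      (Finset.univ.image (fun j : Fin 4 => (none, (snk (Fin.castLE hr j) : Vtx m r)))))

theorem mem_arcs {m r : ℕ} (hm : 4 ≤ m) (hr : 4 ≤ r) (a : Vtx m r × Vtx m r) :
    a ∈ arcs m r hm hr ↔
      (∃ (i : Fin m) (j : Fin r), ¬ Del i j ∧ a = (src i, snk j)) ∨
        (∃ i : Fin m, i.1 < 4 ∧ a = (src i, none)) ∨
        (∃ j : Fin r, j.1 < 4 ∧ a = (none, snk j)) := by
  unfold arcs
  simp only [Finset.mem_union, Finset.mem_image, Finset.mem_filter, Finset.mem_univ, true_and]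
  constructor
  · rintro (⟨p, hp, rfl⟩ | ⟨i, rfl⟩ | ⟨j, rfl⟩)
    · exact Or.inl ⟨p.1, p.2, hp, rfl⟩
    · exact Or.inr (Or.inl ⟨Fin.castLE hm i, i.2, rfl⟩)
    · exact Or.inr (Or.inr ⟨Fin.castLE hr j, j.2, rfl⟩)
  · rintro (⟨i, j, hp, rfl⟩ | ⟨i, hi, rfl⟩ | ⟨j, hj, rfl⟩)
    · exact Or.inl ⟨(i, j), hp, rfl⟩
    · exact Or.inr (Or.inl ⟨⟨i.1, hi⟩, rfl⟩)
    · exact Or.inr (Or.inr ⟨⟨j.1, hj⟩, rfl⟩)

theorem card_arcs {m r : ℕ} (hm : 4 ≤ m) (hr : 4 ≤ r) :
    (arcs m r hm hr).card + 1 ≤ m * r := by
  classical
  have h1 : (arcs m r hm hr).card ≤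
      (Finset.univ.filter (fun p : Fin m × Fin r => ¬ Del p.1 p.2)).card + (4 + 4) := by
    unfold arcs
    refine (Finset.card_union_le _ _).trans (Nat.add_le_add Finset.card_image_le ?_)
    refine (Finset.card_union_le _ _).trans (Nat.add_le_add ?_ ?_)
    · exact Finset.card_image_le.trans (by simp)
    · exact Finset.card_image_le.trans (by simp)
  have h2 : 9 ≤ (Finset.univ.filter (fun p : Fin m × Fin r => Del p.1 p.2)).card := by
    have : ((Finset.univ.filter (fun p : Fin 4 × Fin 4 => Del p.1 p.2)).map
        ⟨fun p => (Fin.castLE hm p.1, Fin.castLE hr p.2), by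
          intro p q hpq
          simp only [Prod.mk.injEq, Fin.castLE_inj] at hpq
          exact Prod.ext hpq.1 hpq.2⟩) ⊆
        (Finset.univ.filter (fun p : Fin m × Fin r => Del p.1 p.2)) := by
      intro p hp
      rw [Finset.mem_map] at hp
      obtain ⟨q, hq, rfl⟩ := hp
      rw [Finset.mem_filter] at hq ⊢
      exact ⟨Finset.mem_univ _, hq.2⟩
    refine le_trans ?_ (Finset.card_le_card this)
    rw [Finset.card_map]
    decide
  have h3 := Finset.card_filter_add_card_filter_not (s := (Finset.univ : Finset (Fin m × Fin r)))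
    (fun p : Fin m × Fin r => Del p.1 p.2)
  have h4 : (Finset.univ : Finset (Fin m × Fin r)).card = m * r := by simp
  omega


/-- The embedding of the ground set `Fin (r + m)`: the first `r` elements are the sinks, the
others are the sources. -/
def emb (m r : ℕ) (k : Fin (r + m)) : Vtx m r := some (finSumFinEquiv.symm k).swap

theorem emb_injective (m r : ℕ) : Function.Injective (emb m r) := by
  intro k k' h
  unfold emb at h
  have h1 := Option.some.inj h
  have h2 : (finSumFinEquiv.symm k) = (finSumFinEquiv.symm k') := by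
    have := congrArg Sum.swap h1
    simpa using this
  exact finSumFinEquiv.symm.injective h2

theorem emb_cases (m r : ℕ) (k : Fin (r + m)) :
    (∃ i, emb m r k = src i) ∨ ∃ j, emb m r k = snk j := by
  unfold emb
  rcases finSumFinEquiv.symm k with j | i
  · exact Or.inr ⟨j, rfl⟩
  · exact Or.inl ⟨i, rfl⟩

theorem snk_mem_range (m r : ℕ) (j : Fin r) : ∃ k, emb m r k = (snk j : Vtx m r) :=
  ⟨finSumFinEquiv (Sum.inl j), by simp [emb]⟩

/-- The size of a routed set is at most the number of targets. -/
theorem ncard_le_of_routing {V : Type*} {A : Set (V × V)} {X T : Set V} {R : Set (List V)}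
    (hT : T.Finite) (h : IsRouting A X T R) : X.ncard ≤ T.ncard := by
  classical
  have hx : ∀ x, ∃ t, x ∈ X → t ∈ T ∧ ∃ p ∈ R, p.head? = some x ∧ p.getLast? = some t := by
    intro x
    by_cases hxX : x ∈ X
    · obtain ⟨p, hp, hpx⟩ := h.start x hxX
      obtain ⟨t, ht, hpt⟩ := h.finish p hp
      exact ⟨t, fun _ => ⟨ht, p, hp, hpx, hpt⟩⟩
    · exact ⟨x, fun hc => absurd hc hxX⟩
  choose f hf using hx
  refine Set.ncard_le_ncard_of_injOn f (fun x hx => (hf x hx).1) ?_ hT
  intro x hx y hy hxy
  obtain ⟨-, p, hp, hpx, hpt⟩ := hf x hx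
  obtain ⟨-, q, hq, hqy, hqt⟩ := hf y hy
  by_cases hpq : p = q
  · subst hpq
    rw [hpx] at hqy
    exact Option.some.inj hqy
  · exact absurd (List.mem_of_getLast? (hxy ▸ hqt)) (h.disjoint p hp q hq hpq _
      (List.mem_of_getLast? hpt))

theorem isStandardRep (m r : ℕ) (hm : 4 ≤ m) (hr : 4 ≤ r) :
    IsStandardRep (uniformMatroid r (r + m)) (emb m r)
      (arcs m r hm hr : Set (Vtx m r × Vtx m r)) (Set.range snk) := by
  classical
  refine ⟨(emb_injective m r).injOn, ?_, ?_, ?_, ?_⟩
  · rintro _ ⟨j, rfl⟩
    obtain ⟨k, hk⟩ := snk_mem_range m r j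
    exact ⟨k, Set.mem_univ _, hk⟩
  · rintro _ ⟨j, rfl⟩ v hv
    rw [Finset.mem_coe, mem_arcs] at hv
    rcases hv with ⟨i, j', _, h⟩ | ⟨i, _, h⟩ | ⟨j', _, h⟩ <;> simp at h
  · rintro _ ⟨k, -, rfl⟩ hk v hv
    rcases emb_cases m r k with ⟨i, hi⟩ | ⟨j, hj⟩
    · rw [Finset.mem_coe, mem_arcs, hi] at hv
      rcases hv with ⟨i, j', _, h⟩ | ⟨i, _, h⟩ | ⟨j', _, h⟩ <;> simp at h
    · exact hk ⟨j, hj.symm⟩
  · intro X _
    rw [uniformMatroid_indep, ← Set.ncard_image_of_injective X (emb_injective m r)]
    constructor
    · intro hX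
      set Z : Set (Vtx m r) := emb m r '' X with hZ
      let P : Finset (Fin m) := Finset.univ.filter (fun i => src i ∈ Z)
      let XT : Finset (Fin r) := Finset.univ.filter (fun j => snk j ∈ Z)
      have hcard : P.card + XT.card ≤ r := by
        have hdisj : Disjoint (P.image (fun i => (src i : Vtx m r)))
            (XT.image (fun j => (snk j : Vtx m r))) := by
          rw [Finset.disjoint_left]
          intro a ha hb
          rw [Finset.mem_image] at ha hb
          obtain ⟨i, _, rfl⟩ := ha
          obtain ⟨j, _, h⟩ := hb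
          simp at h
        have h1 : (P.image (fun i => (src i : Vtx m r))).card = P.card :=
          Finset.card_image_of_injective _ (fun a b hab => by simpa using hab)
        have h2 : (XT.image (fun j => (snk j : Vtx m r))).card = XT.card :=
          Finset.card_image_of_injective _ (fun a b hab => by simpa using hab)
        rw [← h1, ← h2, ← Finset.card_union_of_disjoint hdisj, ← Set.ncard_coe_finset]
        refine le_trans (Set.ncard_le_ncard ?_ (Set.toFinite Z)) hX
        intro a ha
        rw [Finset.mem_coe, Finset.mem_union, Finset.mem_image, Finset.mem_image] at ha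
        rcases ha with ⟨i, hi, rfl⟩ | ⟨j, hj, rfl⟩
        · exact (Finset.mem_filter.1 hi).2
        · exact (Finset.mem_filter.1 hj).2
      have hY : P.card ≤ (Finset.univ \ XT).card := by
        rw [Finset.card_sdiff_of_subset (Finset.subset_univ _), Finset.card_univ, Fintype.card_fin]
        omega
      obtain ⟨f, hfY, hfinj, hfdel⟩ := exists_assignment P (Finset.univ \ XT) hY
      have hfnot : ∀ i : P, snk (f i) ∉ Z := by
        intro i hi
        have := hfY i
        rw [Finset.mem_sdiff] at this
        exact this.2 (Finset.mem_filter.2 ⟨Finset.mem_univ _, hi⟩)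
      let pth : P → List (Vtx m r) := fun i =>
        if Del i.1 (f i) then [src i.1, none, snk (f i)] else [src i.1, snk (f i)]
      have hmem : ∀ (i : P) (v : Vtx m r), v ∈ pth i →
          v = src i.1 ∨ (v = none ∧ Del i.1 (f i)) ∨ v = snk (f i) := by
        intro i v hv
        by_cases hd : Del i.1 (f i)
        · simp only [pth, if_pos hd, List.mem_cons, List.not_mem_nil, or_false] at hv
          rcases hv with h | h | h
          · exact Or.inl h
          · exact Or.inr (Or.inl ⟨h, hd⟩)
          · exact Or.inr (Or.inr h)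
        · simp only [pth, if_neg hd, List.mem_cons, List.not_mem_nil, or_false] at hv
          rcases hv with h | h
          · exact Or.inl h
          · exact Or.inr (Or.inr h)
      refine ⟨{p | (∃ j ∈ XT, p = [snk j]) ∨ ∃ i : P, p = pth i}, ?_, ?_, ?_, ?_⟩
      · rintro p (⟨j, _, rfl⟩ | ⟨i, rfl⟩)
        · exact ⟨by simp, by simp, by simp⟩
        · by_cases hd : Del i.1 (f i)
          · simp only [pth, if_pos hd]
            refine ⟨by simp, by simp, ?_⟩
            simp only [List.isChain_cons_cons, List.isChain_singleton, and_true, Finset.mem_coe,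
              mem_arcs]
            exact ⟨Or.inr (Or.inl ⟨i.1, hd.1, rfl⟩), Or.inr (Or.inr ⟨f i, hd.2.1, rfl⟩)⟩
          · simp only [pth, if_neg hd]
            refine ⟨by simp, by simp, ?_⟩
            simp only [List.isChain_cons_cons, List.isChain_singleton, and_true, Finset.mem_coe,
              mem_arcs]
            exact Or.inl ⟨i.1, f i, hd, rfl⟩
      · rintro p (⟨j, hj, rfl⟩ | ⟨i, rfl⟩) q (⟨j', hj', rfl⟩ | ⟨i', rfl⟩) hpq v hv hv'
        · simp only [List.mem_singleton] at hv hv'
          rw [hv] at hv'
          apply hpq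
          rw [hv']
        · simp only [List.mem_singleton] at hv
          subst hv
          rcases hmem i' _ hv' with h | ⟨h, _⟩ | h
          · simp at h
          · simp at h
          · have : snk j ∈ Z := (Finset.mem_filter.1 hj).2
            rw [h] at this
            exact hfnot i' this
        · simp only [List.mem_singleton] at hv'
          subst hv'
          rcases hmem i _ hv with h | ⟨h, _⟩ | h
          · simp at h
          · simp at h
          · have : snk j' ∈ Z := (Finset.mem_filter.1 hj').2
            rw [h] at this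
            exact hfnot i this
        · apply hpq
          have hii : i = i' := by
            rcases hmem i v hv with h | ⟨h, hd⟩ | h <;> rcases hmem i' v hv' with h' | ⟨h', hd'⟩ | h'
            · rw [h] at h'
              exact Subtype.ext (by simpa using h')
            · rw [h] at h'; simp at h'
            · rw [h] at h'; simp at h'
            · rw [h] at h'; simp at h'
            · exact hfdel i i' hd hd'
            · rw [h] at h'; simp at h'
            · rw [h] at h'; simp at h'
            · rw [h] at h'; simp at h'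
            · rw [h] at h'
              exact hfinj (by simpa using h')
          rw [hii]
      · intro x hx
        obtain ⟨k, hk, rfl⟩ := hx
        rcases emb_cases m r k with ⟨i, hi⟩ | ⟨j, hj⟩
        · have hiP : i ∈ P := Finset.mem_filter.2 ⟨Finset.mem_univ _, by
            rw [← hi]; exact ⟨k, hk, rfl⟩⟩
          refine ⟨pth ⟨i, hiP⟩, Or.inr ⟨_, rfl⟩, ?_⟩
          rw [hi]
          by_cases hd : Del i (f ⟨i, hiP⟩)
          · simp only [pth, if_pos hd, List.head?_cons]
          · simp only [pth, if_neg hd, List.head?_cons]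
        · refine ⟨[snk j], Or.inl ⟨j, Finset.mem_filter.2 ⟨Finset.mem_univ _, by
            rw [← hj]; exact ⟨k, hk, rfl⟩⟩, rfl⟩, ?_⟩
          rw [hj]; rfl
      · rintro p (⟨j, _, rfl⟩ | ⟨i, rfl⟩)
        · exact ⟨snk j, ⟨j, rfl⟩, rfl⟩
        · refine ⟨snk (f i), ⟨f i, rfl⟩, ?_⟩
          by_cases hd : Del i.1 (f i)
          · simp only [pth, if_pos hd]; rfl
          · simp only [pth, if_neg hd]; rfl
    · rintro ⟨R, hR⟩
      refine (ncard_le_of_routing (Set.toFinite _) hR).trans ?_
      rw [← Set.image_univ, Set.ncard_image_of_injective _ (fun a b hab => by simpa using hab)]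
      simp

/-- For all `r ≥ 4` and `n ≥ r + 4` the arc-complexity of the uniform matroid `U_{r,n}` is
smaller than `r (n - r)`; in particular `arcC(U_{4,8}) < 16`. -/
theorem result (r n : ℕ) (hr : 4 ≤ r) (hn : r + 4 ≤ n) :
    arcComplexity (uniformMatroid r n) < ((r * (n - r) : ℕ) : ℕ∞) := by
  obtain ⟨m, rfl⟩ : ∃ m, n = r + m := ⟨n - r, by omega⟩
  have hm : 4 ≤ m := by omega
  have h1 : arcComplexity (uniformMatroid r (r + m)) ≤ ((arcs m r hm hr).card : ℕ∞) :=
    sInf_le ⟨Vtx m r, inferInstance, emb m r, arcs m r hm hr, Set.range snk,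
      isStandardRep m r hm hr, rfl⟩
  refine lt_of_le_of_lt h1 ?_
  have h2 := card_arcs hm hr
  have h3 : r + m - r = m := by omega
  rw [h3, Nat.cast_lt, mul_comm r m]
  omega

end Pool.Agent.Results.MP_0a0514_co.UniformArcs
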